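import Pool.Agent.Helper75_Eng3.Frob

/-! Squad ENG part 3, module OCMO (helper75), first part: numbers and traces. -/

set_option autoImplicit false

namespace Pool.Agent.Eng.H75

open Pool.Agent.Eng

/-- The numbers of OCMO. -/
theorem cmo_nums {q m p k : ℕ} (hq : 2 ≤ q) (hp : p.Prime) (hp2 : p ≠ 2) (hpq : p ∣ q + 1)
    (hm : 3 ≤ m) (hk : 1 ≤ k) (hord : ∀ t : ℕ, 1 ≤ t → (p ^ k ∣ q ^ t - 1 ↔ 2 * m ∣ t)) :
    ∃ a b : ℕ, 1 ≤ a ∧ 1 ≤ b ∧ k = a + b ∧ m = p ^ b ∧ p ^ a ∣ q + 1 ∧ ¬ p ^ (a + 1) ∣ q + 1 ∧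
      ∀ s : ℕ, 1 ≤ s → padicValNat p (q ^ (2 * s) - 1) = a + padicValNat p s := by
  have := Fact.mk hp
  have hp3 : 3 ≤ p := by
    have := hp.two_le
    omega
  have hpodd : Odd p := hp.odd_of_ne_two hp2
  have hpq1 : ¬ p ∣ q - 1 := by
    intro h
    have h1 : p ∣ (q + 1) - (q - 1) := Nat.dvd_sub hpq h
    have h2 : (q + 1) - (q - 1) = 2 := by omega
    rw [h2] at h1
    have := Nat.le_of_dvd (by norm_num) h1
    omega
  have hpq0 : ¬ p ∣ q := by
    intro h
    have h1 : p ∣ (q + 1) - q := Nat.dvd_sub hpq h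
    have h2 : (q + 1) - q = 1 := by omega
    rw [h2] at h1
    have := Nat.le_of_dvd (by norm_num) h1
    omega
  set a := padicValNat p (q + 1) with ha
  have hsq : q ^ 2 - 1 = (q + 1) * (q - 1) := by
    have : q ^ 2 - 1 = q ^ 2 - 1 ^ 2 := by norm_num
    rw [this, Nat.sq_sub_sq]
  have hv2 : padicValNat p (q ^ 2 - 1) = a := by
    rw [hsq, padicValNat.mul (by omega) (by omega),
      padicValNat.eq_zero_of_not_dvd hpq1, add_zero]
  have ha1 : 1 ≤ a := one_le_padicValNat_of_dvd (by omega) hpq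
  have hpa : p ^ a ∣ q + 1 := pow_padicValNat_dvd
  have hpa1 : ¬ p ^ (a + 1) ∣ q + 1 := pow_succ_padicValNat_not_dvd (by omega)
  have hq2 : 1 < q ^ 2 := by nlinarith
  have hlte : ∀ s : ℕ, 1 ≤ s → padicValNat p (q ^ (2 * s) - 1) = a + padicValNat p s := by
    intro s hs
    have h1 := padicValNat.pow_sub_pow (p := p) (x := q ^ 2) (y := 1) hpodd hq2
      (by rw [hsq]; exact Dvd.dvd.mul_right hpq _)
      (fun h => hpq0 (hp.dvd_of_dvd_pow h)) (n := s) (by omega)
    rw [one_pow, ← pow_mul, hv2] at h1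
    exact h1
  have hiff : ∀ s : ℕ, 1 ≤ s → (m ∣ s ↔ k ≤ a + padicValNat p s) := by
    intro s hs
    have h0 : q ^ (2 * s) - 1 ≠ 0 := by
      have : 1 < q ^ (2 * s) := Nat.one_lt_pow (by omega) (by omega)
      omega
    rw [← hlte s hs, ← padicValNat_dvd_iff_le h0, hord (2 * s) (by omega)]
    exact (Nat.mul_dvd_mul_iff_left (by norm_num)).symm
  have hkm : k ≤ a + padicValNat p m := (hiff m (by omega)).1 dvd_rfl
  have h1 : p ^ (k - a) ∣ m := by
    rw [padicValNat_dvd_iff_le (by omega)]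
    omega
  have h2 : m ∣ p ^ (k - a) := by
    rw [hiff _ (Nat.one_le_pow _ _ (by omega)), padicValNat.prime_pow]
    omega
  have h3 : m = p ^ (k - a) := Nat.dvd_antisymm h2 h1
  have h4 : 1 ≤ k - a := by
    by_contra hcon
    have : k - a = 0 := by omega
    rw [this, pow_zero] at h3
    omega
  exact ⟨a, k - a, ha1, h4, by omega, h3, hpa, hpa1, hlte⟩

section
variable {F K : Type} [Field F] [Finite F] [Field K] [Algebra F K] [FiniteDimensional F K]

/-- The trace is invariant under Frobenius. -/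
theorem trace_frob (j : ℕ) (x : K) :
    Algebra.trace F K (x ^ Nat.card F ^ j) = Algebra.trace F K x := by
  apply FaithfulSMul.algebraMap_injective F K
  rw [trace_eq F rfl]
  have h1 : ∀ i, (x ^ Nat.card F ^ j) ^ Nat.card F ^ i = (x ^ Nat.card F ^ i) ^ Nat.card F ^ j := by
    intro i
    rw [pow_q_add, pow_q_add, add_comm]
  obtain ⟨σ, hσ⟩ := exists_frob F (K := K) j
  have h2 : ∀ i, (x ^ Nat.card F ^ j) ^ Nat.card F ^ i = σ (x ^ Nat.card F ^ i) := by
    intro i
    rw [h1, hσ]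
  rw [Finset.sum_congr rfl fun i _ => h2 i, ← map_sum, ← trace_eq F rfl, AlgHom.commutes]

/-- `λ^(q^t) = λ` iff `2m ∣ t`. -/
theorem frob_fix {n : ℕ} (hn : Module.finrank F K = n) {lam : K}
    (hadj : Algebra.adjoin F {lam} = ⊤) (t : ℕ) : lam ^ Nat.card F ^ t = lam ↔ n ∣ t := by
  classical
  have hK : Finite K := Module.finite_of_finite F
  have := Fintype.ofFinite F
  constructor
  · intro h
    rw [← hn, ← FiniteField.orderOf_frobeniusAlgHom F K, orderOf_dvd_iff_pow_eq_one]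
    have h1 : ∀ x : K, ((FiniteField.frobeniusAlgHom F K) ^ t) x = x ^ Nat.card F ^ t := by
      intro x
      rw [AlgHom.coe_pow, FiniteField.coe_frobeniusAlgHom, pow_iterate, Nat.card_eq_fintype_card]
    apply AlgHom.ext_of_adjoin_eq_top hadj
    intro x hx
    rw [Set.mem_singleton_iff] at hx
    subst hx
    rw [h1, h]
    rfl
  · rintro ⟨c, rfl⟩
    induction c with
    | zero => rw [mul_zero, pow_zero, pow_one]
    | succ c ih =>
      rw [mul_add, mul_one, ← pow_q_add, ih, ← hn]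
      exact pow_q_finrank F _

theorem fix_pow (F : Type) {K : Type} [Field K] {j : ℕ} {x : K} (hx : x ^ Nat.card F ^ j = x)
    (n : ℕ) : x ^ Nat.card F ^ (j * n) = x := by
  induction n with
  | zero => rw [mul_zero, pow_zero, pow_one]
  | succ n ih =>
    rw [mul_add, mul_one, pow_add, pow_mul, ih, hx]

/-- Powers of `λ` have trace zero over the fixed field of `x ↦ x^(q^2)`. -/
theorem trace_zero {p a b : ℕ} (hp : p.Prime) (ha : 1 ≤ a)
    (hv : ∀ s : ℕ, 1 ≤ s → padicValNat p (Nat.card F ^ (2 * s) - 1) = a + padicValNat p s)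
    {lam : K} (hlam : orderOf lam = p ^ (a + b)) {t : ℕ} (ht0 : 0 < t) (htb : t < p ^ b)
    {u : K} (hu : u ^ Nat.card F ^ 2 = u) : Algebra.trace F K (u * lam ^ t) = 0 := by
  have := Fact.mk hp
  have hq : 2 ≤ Nat.card F := Finite.one_lt_card
  have hlam0 : lam ≠ 0 := by
    rintro rfl
    rw [orderOf_zero] at hlam
    exact absurd hlam (Nat.ne_of_lt (Nat.pow_pos hp.pos))
  set e := padicValNat p t with he
  have heb : e < b := by
    have h1 : p ^ e ≤ t := Nat.le_of_dvd ht0 pow_padicValNat_dvd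
    exact (Nat.pow_lt_pow_iff_right hp.one_lt).1 (lt_of_le_of_lt h1 htb)
  set i := b - 1 - e with hi
  set N := p ^ i with hN
  have hN1 : 1 ≤ N := Nat.one_le_pow _ _ hp.pos
  set s := Nat.card F ^ (2 * N) with hs
  have hs1 : 1 < s := Nat.one_lt_pow (by omega) (by omega)
  have hval : padicValNat p (t * (s - 1)) = a + b - 1 := by
    rw [padicValNat.mul (by omega) (by omega), hs, hv N hN1, hN, padicValNat.prime_pow, ← he, hi]
    omega
  set ω : K := lam ^ (t * (s - 1)) with hω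
  have hω1 : ω ≠ 1 := by
    intro h
    rw [hω, ← orderOf_dvd_iff_pow_eq_one, hlam,
      padicValNat_dvd_iff_le (Nat.mul_ne_zero (by omega) (by omega)), hval] at h
    omega
  have hωp : ω ^ p = 1 := by
    rw [hω, ← pow_mul, ← orderOf_dvd_iff_pow_eq_one, hlam]
    have h1 : p ^ (a + b - 1) ∣ t * (s - 1) := by
      rw [← hval]
      exact pow_padicValNat_dvd
    have h2 : p ^ (a + b) = p ^ (a + b - 1) * p := by
      rw [← pow_succ]
      congr 1
      omega
    rw [h2]
    exact Nat.mul_dvd_mul h1 dvd_rfl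
  have hpq : p ∣ Nat.card F ^ 2 - 1 := by
    have h1 := hv 1 le_rfl
    rw [mul_one] at h1
    have h2 : padicValNat p (Nat.card F ^ 2 - 1) ≠ 0 := by omega
    exact dvd_of_one_le_padicValNat (by omega)
  have hωL : ω ^ Nat.card F ^ 2 = ω := by
    obtain ⟨c, hc⟩ := hpq
    have h1 : Nat.card F ^ 2 = 1 + p * c := by
      rw [← hc]
      have : 1 ≤ Nat.card F ^ 2 := Nat.one_le_pow _ _ (by omega)
      omega
    rw [h1, pow_add, pow_one, pow_mul, hωp, one_pow, mul_one]
  have hL : ∀ x : K, x ^ Nat.card F ^ 2 = x → x ^ s = x := fun x hx => fix_pow F hx N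
  have hω1' : (1 : K) - ω ≠ 0 := sub_ne_zero.2 (Ne.symm hω1)
  have hkey : ∀ w : K, w ^ Nat.card F ^ 2 = w →
      Algebra.trace F K (w * (1 - ω) * lam ^ t) = 0 := by
    intro w hw
    have h1 := trace_frob (F := F) (2 * N) (w * lam ^ t)
    have h2 : (w * lam ^ t) ^ Nat.card F ^ (2 * N) = w * ω * lam ^ t := by
      rw [mul_pow, ← hs, hL w hw, ← pow_mul, hω, mul_assoc, ← pow_add]
      congr 2
      have : t * s = t * (s - 1) + t * 1 := by rw [← mul_add, Nat.sub_add_cancel hs1.le]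
      rw [this, mul_one]
    rw [h2] at h1
    have h3 : w * (1 - ω) * lam ^ t = w * lam ^ t - w * ω * lam ^ t := by ring
    rw [h3, map_sub, h1, sub_self]
  have h5 := hkey (u * (1 - ω)⁻¹) (by
    rw [mul_pow, hu, inv_pow, sub_pow_q, one_pow, hωL])
  rwa [inv_mul_cancel_right₀ hω1'] at h5

end

end Pool.Agent.Eng.H75
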