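import Pool.Agent.Helper75_Eng3.Cmo1

/-! Squad ENG part 3, module OCMO (helper75), second part: `K = ⊕ L λ^j`. -/

set_option autoImplicit false

namespace Pool.Agent.Eng.H75

open Pool.Agent.Eng

section
variable (F K : Type) [Field F] [Finite F] [Field K] [Algebra F K] [FiniteDimensional F K]

/-- The fixed field of `x ↦ x^(q²)` as an `F`-subspace. -/
def Lq : Submodule F K where
  carrier := {x | x ^ Nat.card F ^ 2 = x}
  add_mem' := by
    intro a b ha hb
    change (a + b) ^ Nat.card F ^ 2 = a + b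
    rw [add_pow_q, show a ^ Nat.card F ^ 2 = a from ha, show b ^ Nat.card F ^ 2 = b from hb]
  zero_mem' := by
    change (0 : K) ^ Nat.card F ^ 2 = 0
    have : 1 < Nat.card F := Finite.one_lt_card
    rw [zero_pow (Nat.pow_pos (by omega)).ne']
  smul_mem' := by
    intro c a ha
    change (c • a) ^ Nat.card F ^ 2 = c • a
    rw [Algebra.smul_def, mul_pow, algebraMap_pow_q, show a ^ Nat.card F ^ 2 = a from ha]

variable {F K}

theorem mem_Lq {x : K} : x ∈ Lq F K ↔ x ^ Nat.card F ^ 2 = x := Iff.rfl

theorem Lq_mul {x y : K} (hx : x ∈ Lq F K) (hy : y ∈ Lq F K) : x * y ∈ Lq F K := by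
  rw [mem_Lq, mul_pow, mem_Lq.1 hx, mem_Lq.1 hy]

theorem Lq_pow {x : K} (hx : x ∈ Lq F K) (n : ℕ) : x ^ n ∈ Lq F K := by
  rw [mem_Lq, ← pow_mul, mul_comm, pow_mul, mem_Lq.1 hx]

theorem Lq_one : (1 : K) ∈ Lq F K := by rw [mem_Lq, one_pow]

theorem card_Lq : Nat.card (Lq F K) ≤ Nat.card F ^ 2 := by
  classical
  have hK : Finite K := Module.finite_of_finite F
  have := Fintype.ofFinite K
  have hq : 1 < Nat.card F := Finite.one_lt_card
  set n := Nat.card F ^ 2 with hn
  have hn1 : 1 < n := Nat.one_lt_pow (by norm_num) hq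
  set f : Polynomial K := Polynomial.X ^ n - Polynomial.X with hf
  have hf0 : f ≠ 0 := FiniteField.X_pow_card_sub_X_ne_zero K hn1
  have hdeg : f.natDegree = n := FiniteField.X_pow_card_sub_X_natDegree_eq K hn1
  have hmemr : ∀ x : Lq F K, (x : K) ∈ f.roots.toFinset := by
    intro x
    rw [Multiset.mem_toFinset, Polynomial.mem_roots hf0, Polynomial.IsRoot, hf]
    have := mem_Lq.1 x.2
    simp only [Polynomial.eval_sub, Polynomial.eval_pow, Polynomial.eval_X]
    rw [hn, this, sub_self]
  have h1 : Nat.card (Lq F K) ≤ f.roots.toFinset.card := by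
    let g : Lq F K → f.roots.toFinset := fun x => ⟨(x : K), hmemr x⟩
    have hg : Function.Injective g := by
      intro a b hab
      have h3 : ((g a : f.roots.toFinset) : K) = ((g b : f.roots.toFinset) : K) := by rw [hab]
      exact Subtype.ext h3
    have h2 := Nat.card_le_card_of_injective g hg
    rwa [Nat.card_eq_fintype_card (α := f.roots.toFinset), Fintype.card_coe] at h2
  refine h1.trans ((Multiset.toFinset_card_le _).trans ((Polynomial.card_roots' f).trans ?_))
  rw [hdeg]

/-- The map `(x_j) ↦ ∑ x_j λ^j`. -/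
noncomputable def theta (m : ℕ) [NeZero m] (lam : K) : (ZMod m → Lq F K) →ₗ[F] K :=
  ∑ j : ZMod m, (LinearMap.mulRight F (lam ^ j.val)) ∘ₗ (Lq F K).subtype ∘ₗ LinearMap.proj j

theorem theta_apply (m : ℕ) [NeZero m] (lam : K) (x : ZMod m → Lq F K) :
    theta m lam x = ∑ j : ZMod m, (x j : K) * lam ^ j.val := by
  simp [theta, LinearMap.sum_apply]

theorem theta_single (m : ℕ) [NeZero m] (lam : K) (j : ZMod m) (u : Lq F K) :
    theta m lam (Pi.single j u) = (u : K) * lam ^ j.val := by
  rw [theta_apply, Finset.sum_eq_single j]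
  · rw [Pi.single_eq_same]
  · intro i _ hi
    rw [Pi.single_eq_of_ne hi]
    simp
  · intro h
    exact absurd (Finset.mem_univ j) h

theorem theta_bij {m : ℕ} [NeZero m] {lam : K} (hm : Module.finrank F K = 2 * m)
    (hadj : Algebra.adjoin F {lam} = ⊤) (hz : lam ^ m ∈ Lq F K) :
    Function.Bijective (theta (F := F) (K := K) m lam) := by
  classical
  have hK : Finite K := Module.finite_of_finite F
  have hmem : ∀ (u : K), u ∈ Lq F K → ∀ i : ℕ,
      u * lam ^ i ∈ LinearMap.range (theta (F := F) (K := K) m lam) := by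
    intro u hu i
    have h1 : u * lam ^ i = u * (lam ^ m) ^ (i / m) * lam ^ (i % m) := by
      rw [← pow_mul, mul_assoc, ← pow_add, Nat.div_add_mod]
    refine ⟨Pi.single ((i % m : ℕ) : ZMod m) ⟨u * (lam ^ m) ^ (i / m), Lq_mul hu (Lq_pow hz _)⟩, ?_⟩
    rw [theta_single, h1]
    have h2 : ((i % m : ℕ) : ZMod m).val = i % m :=
      ZMod.val_natCast_of_lt (Nat.mod_lt _ (NeZero.pos m))
    rw [h2]
  have hsurj : Function.Surjective (theta (F := F) (K := K) m lam) := by
    have hmul : ∀ a : K, ∀ x ∈ LinearMap.range (theta (F := F) (K := K) m lam),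
        a * x ∈ LinearMap.range (theta (F := F) (K := K) m lam) := by
      intro a
      have ha : a ∈ Algebra.adjoin F {lam} := by rw [hadj]; trivial
      induction ha using Algebra.adjoin_induction with
      | mem x hx =>
        rw [Set.mem_singleton_iff] at hx
        subst hx
        rintro _ ⟨y, rfl⟩
        rw [theta_apply, Finset.mul_sum]
        refine Submodule.sum_mem _ fun j _ => ?_
        have : x * ((y j : K) * x ^ j.val) = (y j : K) * x ^ (j.val + 1) := by ring
        rw [this]
        exact hmem _ (y j).2 _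
      | algebraMap r =>
        intro y hy
        rw [← Algebra.smul_def]
        exact Submodule.smul_mem _ r hy
      | add a b _ _ ha hb =>
        intro y hy
        rw [add_mul]
        exact Submodule.add_mem _ (ha y hy) (hb y hy)
      | mul a b _ _ ha hb =>
        intro y hy
        rw [mul_assoc]
        exact ha _ (hb y hy)
    intro z
    have h1 := hmem 1 Lq_one 0
    rw [pow_zero, mul_one] at h1
    have := hmul z 1 h1
    rw [mul_one] at this
    exact this
  apply Function.Surjective.bijective_of_nat_card_le hsurj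
  rw [Nat.card_fun, Nat.card_zmod]
  have hcardK : Nat.card K = Nat.card F ^ (2 * m) := by
    have := Fintype.ofFinite F
    have := Fintype.ofFinite K
    rw [Nat.card_eq_fintype_card, Nat.card_eq_fintype_card, ← hm,
      Module.card_eq_pow_finrank (K := F) (V := K)]
  rw [hcardK, pow_mul]
  exact Nat.pow_le_pow_left card_Lq m

/-- `Q` of a sum of pairwise orthogonal elements. -/
theorem map_sum_orth {ι : Type} (Q : QuadraticForm F K) (z : ι → K)
    (h : ∀ i j, i ≠ j → QuadraticMap.polar Q (z i) (z j) = 0) (s : Finset ι) :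
    Q (∑ i ∈ s, z i) = ∑ i ∈ s, Q (z i) := by
  classical
  induction s using Finset.induction_on with
  | empty => simp
  | insert a s ha ih =>
    rw [Finset.sum_insert ha, Finset.sum_insert ha, ← ih]
    have : QuadraticMap.polar Q (z a) (∑ i ∈ s, z i) = 0 := by
      have h1 : QuadraticMap.polar Q (z a) (∑ i ∈ s, z i) =
          QuadraticMap.polarBilin Q (z a) (∑ i ∈ s, z i) := rfl
      rw [h1, map_sum]
      apply Finset.sum_eq_zero
      intro i hi
      exact h a i (by rintro rfl; exact ha hi)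
    rw [QuadraticMap.polar] at this
    linear_combination this

/-- The spaces `L λ^j` are pairwise orthogonal. -/
theorem orth {p a b : ℕ} (hp : p.Prime) (ha : 1 ≤ a) [NeZero (p ^ b)]
    (hv : ∀ s : ℕ, 1 ≤ s → padicValNat p (Nat.card F ^ (2 * s) - 1) = a + padicValNat p s)
    {lam : K} (hlam : orderOf lam = p ^ (a + b)) (hm : Module.finrank F K = 2 * p ^ b)
    (hq : lam ^ (Nat.card F ^ p ^ b + 1) = 1) {Q : QuadraticForm F K}
    (hQ : IsStd (p ^ b) Q) {u w : K} (hu : u ∈ Lq F K) (hw : w ∈ Lq F K) {i j : ZMod (p ^ b)}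
    (hij : i ≠ j) : QuadraticMap.polar Q (u * lam ^ i.val) (w * lam ^ j.val) = 0 := by
  have hlam0 : lam ≠ 0 := by
    rintro rfl
    rw [orderOf_zero] at hlam
    exact absurd hlam (Nat.ne_of_lt (Nat.pow_pos hp.pos))
  have hinv : lam ^ Nat.card F ^ p ^ b = lam⁻¹ := by
    rw [pow_succ] at hq
    exact eq_inv_of_mul_eq_one_left hq
  -- the case `j < i`
  have key : ∀ (u w : K), u ∈ Lq F K → w ∈ Lq F K → ∀ i j : ZMod (p ^ b), j.val < i.val →
      QuadraticMap.polar Q (u * lam ^ i.val) (w * lam ^ j.val) = 0 := by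
    intro u w hu hw i j hlt
    rw [polar_std F hm hQ]
    have h1 : u * lam ^ i.val * (w * lam ^ j.val) ^ Nat.card F ^ p ^ b =
        (u * w ^ Nat.card F ^ p ^ b) * lam ^ (i.val - j.val) := by
      have h2 : (lam ^ j.val) ^ Nat.card F ^ p ^ b = (lam ^ j.val)⁻¹ := by
        rw [← pow_mul, mul_comm, pow_mul, hinv, inv_pow]
      have h3 : lam ^ i.val = lam ^ (i.val - j.val) * lam ^ j.val := by
        rw [← pow_add, Nat.sub_add_cancel hlt.le]
      rw [mul_pow, h2, h3]
      field_simp
    rw [h1]
    exact trace_zero hp ha hv hlam (by omega) (lt_of_le_of_lt (Nat.sub_le _ _) (ZMod.val_lt i))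
      (mem_Lq.1 (Lq_mul hu (Lq_pow hw _)))
  rcases lt_or_gt_of_ne (fun h => hij (ZMod.val_injective _ h)) with h | h
  · rw [QuadraticMap.polar_comm]
    exact key w u hw hu j i h
  · exact key u w hu hw i j h

end

end Pool.Agent.Eng.H75
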