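import Pool.Agent.Helper99_Eng3.Stmts

/-! Squad ENG part 3 (helper75): powers of Frobenius, the standard form. -/

set_option autoImplicit false

namespace Pool.Agent.Eng.H75

open Pool.Agent.Eng

section
variable (F : Type) {K : Type} [Field F] [Finite F] [Field K] [Algebra F K]

/-- `x ↦ x^(q^i)` as an `F`-algebra endomorphism. -/
theorem exists_frob (i : ℕ) : ∃ σ : K →ₐ[F] K, ∀ x, σ x = x ^ Nat.card F ^ i := by
  classical
  have := Fintype.ofFinite F
  refine ⟨(FiniteField.frobeniusAlgHom F K) ^ i, fun x => ?_⟩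
  rw [AlgHom.coe_pow, FiniteField.coe_frobeniusAlgHom, pow_iterate, Nat.card_eq_fintype_card]

theorem add_pow_q (i : ℕ) (x y : K) :
    (x + y) ^ Nat.card F ^ i = x ^ Nat.card F ^ i + y ^ Nat.card F ^ i := by
  obtain ⟨σ, hσ⟩ := exists_frob F (K := K) i
  rw [← hσ, map_add, hσ, hσ]

theorem sub_pow_q (i : ℕ) (x y : K) :
    (x - y) ^ Nat.card F ^ i = x ^ Nat.card F ^ i - y ^ Nat.card F ^ i := by
  obtain ⟨σ, hσ⟩ := exists_frob F (K := K) i
  rw [← hσ, map_sub, hσ, hσ]

theorem algebraMap_pow_q (i : ℕ) (a : F) :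
    (algebraMap F K a) ^ Nat.card F ^ i = algebraMap F K a := by
  obtain ⟨σ, hσ⟩ := exists_frob F (K := K) i
  rw [← hσ, AlgHom.commutes]

theorem pow_q_finrank [FiniteDimensional F K] (x : K) :
    x ^ Nat.card F ^ Module.finrank F K = x := by
  classical
  have hK : Finite K := Module.finite_of_finite F
  have := Fintype.ofFinite F
  have := Fintype.ofFinite K
  rw [Nat.card_eq_fintype_card, ← Module.card_eq_pow_finrank, FiniteField.pow_card]

theorem pow_q_add (i j : ℕ) (x : K) :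
    (x ^ Nat.card F ^ i) ^ Nat.card F ^ j = x ^ Nat.card F ^ (i + j) := by
  rw [← pow_mul, ← pow_add]

/-- The trace as a sum of powers. -/
theorem trace_eq [FiniteDimensional F K] {n : ℕ} (hn : Module.finrank F K = n) (x : K) :
    algebraMap F K (Algebra.trace F K x) = ∑ i ∈ Finset.range n, x ^ Nat.card F ^ i := by
  have hK : Finite K := Module.finite_of_finite F
  rw [FiniteField.algebraMap_trace_eq_sum_pow, hn]

/-- The polar form of the standard form. -/
theorem polar_std [FiniteDimensional F K] {m : ℕ} (hm : Module.finrank F K = 2 * m)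
    {Q : QuadraticForm F K} (hQ : IsStd m Q) (x y : K) :
    QuadraticMap.polar Q x y = Algebra.trace F K (x * y ^ Nat.card F ^ m) := by
  apply FaithfulSMul.algebraMap_injective F K
  rw [trace_eq F hm, QuadraticMap.polar, map_sub, map_sub, hQ, hQ, hQ, ← Finset.sum_sub_distrib,
    ← Finset.sum_sub_distrib, two_mul, Finset.sum_range_add, ← Finset.sum_add_distrib]
  refine Finset.sum_congr rfl fun i _ => ?_
  have h1 : ∀ z : K, z ^ (1 + Nat.card F ^ m) = z * z ^ Nat.card F ^ m := fun z => by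
    rw [pow_add, pow_one]
  have h2 : (x * y ^ Nat.card F ^ m) ^ Nat.card F ^ (m + i) =
      (x ^ Nat.card F ^ m * y) ^ Nat.card F ^ i := by
    rw [← pow_q_add F m i, mul_pow x, pow_q_add F m m, ← two_mul, ← hm, pow_q_finrank F y]
  rw [h2, ← sub_pow_q, ← sub_pow_q, ← add_pow_q]
  congr 1
  rw [h1, h1, h1, add_pow_q F m x y]
  ring

end

/-- The norm `d ↦ d^(1+q^m)` is onto the fixed field. -/
theorem norm_onto {K : Type} [Field K] [Finite K] {Q : ℕ} (hQ : 2 ≤ Q) (hcard : Nat.card K = Q * Q)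
    {c : K} (hc0 : c ≠ 0) (hc : c ^ Q = c) : ∃ d : K, d ^ (1 + Q) = c := by
  classical
  have := Fintype.ofFinite K
  obtain ⟨z, hz⟩ := IsCyclic.exists_generator (α := Kˣ)
  set u : Kˣ := Units.mk0 c hc0 with hu
  obtain ⟨n, hn⟩ := (Submonoid.mem_powers_iff u z).1 (by
    rw [mem_powers_iff_mem_zpowers]
    exact hz u)
  have hordz : orderOf z = Q * Q - 1 := by
    rw [orderOf_eq_card_of_forall_mem_zpowers hz, Nat.card_eq_fintype_card, Fintype.card_units,
      ← Nat.card_eq_fintype_card, hcard]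
  have hu1 : u ^ (Q - 1) = 1 := by
    have h1 : u ^ Q = u := by
      ext
      rw [Units.val_pow_eq_pow_val, hu]
      exact hc
    have h2 : u ^ (Q - 1) * u = u := by
      rw [← pow_succ, Nat.sub_add_cancel (by omega)]
      exact h1
    exact mul_eq_right.1 h2
  have hdvd : Q * Q - 1 ∣ n * (Q - 1) := by
    rw [← hordz, orderOf_dvd_iff_pow_eq_one, pow_mul, hn, hu1]
  have hfac : Q * Q - 1 = (1 + Q) * (Q - 1) := by
    have : Q * Q - 1 = Q ^ 2 - 1 ^ 2 := by ring_nf
    rw [this, Nat.sq_sub_sq]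
    ring
  rw [hfac] at hdvd
  obtain ⟨k, hk⟩ := Nat.dvd_of_mul_dvd_mul_right (by omega) hdvd
  refine ⟨((z ^ k : Kˣ) : K), ?_⟩
  rw [← Units.val_pow_eq_pow_val, ← pow_mul, mul_comm k, ← hk, hn, hu]
  rfl

end Pool.Agent.Eng.H75
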