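import Pool.Agent.Helper75_Eng3.Cmo2

/-! Squad ENG part 3, module OCMO (helper75): `m` odd, `p` divides `q + 1`. -/

set_option autoImplicit false

namespace Pool.Agent.Eng.H75

open Pool.Agent.Eng

section
variable {F K : Type} [Field F] [Finite F] [Field K] [Algebra F K] [FiniteDimensional F K]

/-- The map `z ↦ ζ^n z^(e)` on `L`. -/
noncomputable def gfun (F : Type) {K : Type} [Field K] (zeta : K) {N : ℕ} (n : ZMod N) (e : ℤˣ)
    (z : K) : K := zeta ^ n.val * (if e = 1 then z else z ^ Nat.card F)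

theorem pow_one_q (F : Type) {K : Type} [Field K] (z : K) : z ^ Nat.card F = z ^ Nat.card F ^ 1 := by
  rw [pow_one]

theorem Lq_powq {z : K} (hz : z ∈ Lq F K) : (z ^ Nat.card F) ^ Nat.card F = z := by
  have := mem_Lq.1 hz
  rw [← pow_mul, ← pow_two]
  exact this

/-- `gfun` as a linear equivalence of `L`. -/
noncomputable def gequiv (zeta : K) (hz : zeta ∈ Lq F K) (hz0 : zeta ≠ 0) {N : ℕ} (n : ZMod N)
    (e : ℤˣ) : Lq F K ≃ₗ[F] Lq F K :=
  LinearEquiv.ofBijective
    ({ toFun := fun z => ⟨gfun F zeta n e z, by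
        unfold gfun
        split_ifs
        · exact Lq_mul (Lq_pow hz _) z.2
        · exact Lq_mul (Lq_pow hz _) (Lq_pow z.2 _)⟩
       map_add' := by
        intro a b
        apply Subtype.ext
        simp only [gfun, Submodule.coe_add]
        split_ifs
        · ring
        · rw [pow_one_q F, pow_one_q F, pow_one_q F, add_pow_q]
          ring
       map_smul' := by
        intro c a
        apply Subtype.ext
        simp only [gfun, Submodule.coe_smul, RingHom.id_apply]
        split_ifs
        · rw [mul_smul_comm]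
        · rw [pow_one_q F, pow_one_q F, Algebra.smul_def, mul_pow, algebraMap_pow_q,
            Algebra.smul_def]
          ring } : Lq F K →ₗ[F] Lq F K)
    (by
      have hK : Finite K := Module.finite_of_finite F
      apply Finite.injective_iff_bijective.1
      intro a b hab
      have h1 : gfun F zeta n e (a : K) = gfun F zeta n e (b : K) := congrArg Subtype.val hab
      unfold gfun at h1
      have h2 := mul_left_cancel₀ (pow_ne_zero _ hz0) h1
      apply Subtype.ext
      split_ifs at h2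
      · exact h2
      · rw [← Lq_powq a.2, ← Lq_powq b.2, h2])

theorem gequiv_apply (zeta : K) (hz : zeta ∈ Lq F K) (hz0 : zeta ≠ 0) {N : ℕ} (n : ZMod N)
    (e : ℤˣ) (z : Lq F K) : (gequiv zeta hz hz0 n e z : K) = gfun F zeta n e z := rfl

/-- Composition of the maps `gfun`. -/
theorem gfun_gfun {zeta : K} {N : ℕ} [NeZero N] (hN : zeta ^ N = 1)
    (hzq : zeta ^ (Nat.card F + 1) = 1) (n n' : ZMod N) (e e' : ℤˣ) {z : K} (hz : z ∈ Lq F K) :
    gfun F zeta n e (gfun F zeta n' e' z) =
      gfun F zeta (n + ((e : ℤ) : ZMod N) * n') (e * e') z := by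
  have hadd : ∀ a b : ZMod N, zeta ^ (a + b).val = zeta ^ a.val * zeta ^ b.val := fun a b =>
    (AddChar.zmodChar N hN).map_add_eq_mul a b
  have hneg : ∀ a : ZMod N, (zeta ^ a.val) ^ Nat.card F = zeta ^ (-a).val := by
    intro a
    have h1 : zeta ^ (-a).val * zeta ^ a.val = 1 := by
      rw [← hadd, neg_add_cancel, ZMod.val_zero, pow_zero]
    have h2 : (zeta ^ a.val) ^ Nat.card F * zeta ^ a.val = 1 := by
      rw [← pow_succ, ← pow_mul, mul_comm, pow_mul, hzq, one_pow]
    have h3 : zeta ^ a.val ≠ 0 := right_ne_zero_of_mul_eq_one h1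
    exact mul_right_cancel₀ h3 (h2.trans h1.symm)
  rcases Int.units_eq_one_or e with rfl | rfl
  · simp only [gfun, if_true, one_mul, Units.val_one, Int.cast_one, hadd, mul_assoc]
  · rcases Int.units_eq_one_or e' with rfl | rfl
    · simp only [gfun, if_true, mul_one, Units.val_neg, Units.val_one, Int.cast_neg,
        Int.cast_one, neg_mul, one_mul, hadd, if_neg (show ¬ (-1 : ℤˣ) = 1 by decide), mul_pow,
        hneg, mul_assoc]
    · simp only [gfun, if_neg (show ¬ (-1 : ℤˣ) = 1 by decide), mul_pow, Units.val_neg,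
        Units.val_one, Int.cast_neg, Int.cast_one, neg_mul, one_mul, neg_neg, if_true, hadd,
        hneg, mul_assoc, Lq_powq hz]

/-- The equivalence `(x_j) ↦ ∑ x_j λ^j`. -/
noncomputable def thetaE (m : ℕ) [NeZero m] (lam : K)
    (hb : Function.Bijective (theta (F := F) (K := K) m lam)) : (ZMod m → Lq F K) ≃ₗ[F] K :=
  LinearEquiv.ofBijective (theta m lam) hb

/-- The isometry attached to `(n_j, e_j)`. -/
noncomputable def fmap (m : ℕ) [NeZero m] (lam : K)
    (hb : Function.Bijective (theta (F := F) (K := K) m lam)) (zeta : K) (hz : zeta ∈ Lq F K)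
    (hz0 : zeta ≠ 0) {N : ℕ} (X : ZMod m → ZMod N × ℤˣ) : K ≃ₗ[F] K :=
  (thetaE m lam hb).symm.trans
    ((LinearEquiv.piCongrRight fun j => gequiv zeta hz hz0 (X j).1 (X j).2).trans
      (thetaE m lam hb))

theorem fmap_apply (m : ℕ) [NeZero m] (lam : K)
    (hb : Function.Bijective (theta (F := F) (K := K) m lam)) (zeta : K) (hz : zeta ∈ Lq F K)
    (hz0 : zeta ≠ 0) {N : ℕ} (X : ZMod m → ZMod N × ℤˣ) (j : ZMod m) {u : K} (hu : u ∈ Lq F K) :
    fmap m lam hb zeta hz hz0 X (u * lam ^ j.val) =
      gfun F zeta (X j).1 (X j).2 u * lam ^ j.val := by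
  have h1 : u * lam ^ j.val = thetaE m lam hb (Pi.single j ⟨u, hu⟩) := (theta_single m lam j ⟨u, hu⟩).symm
  rw [fmap, LinearEquiv.trans_apply, LinearEquiv.trans_apply, h1, LinearEquiv.symm_apply_apply]
  have h2 : (LinearEquiv.piCongrRight fun j => gequiv zeta hz hz0 (X j).1 (X j).2)
      (Pi.single j (⟨u, hu⟩ : Lq F K)) =
      Pi.single j (gequiv zeta hz hz0 (X j).1 (X j).2 ⟨u, hu⟩) := by
    funext i
    rw [LinearEquiv.piCongrRight_apply]
    by_cases hi : i = j
    · subst hi
      rw [Pi.single_eq_same, Pi.single_eq_same]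
    · rw [Pi.single_eq_of_ne hi, Pi.single_eq_of_ne hi, map_zero]
  rw [h2]
  exact theta_single m lam j _

theorem ext_theta (m : ℕ) [NeZero m] (lam : K)
    (hb : Function.Bijective (theta (F := F) (K := K) m lam)) {f g : K ≃ₗ[F] K}
    (h : ∀ (j : ZMod m) (u : K), u ∈ Lq F K → f (u * lam ^ j.val) = g (u * lam ^ j.val)) :
    f = g := by
  ext v
  obtain ⟨x, rfl⟩ := hb.2 v
  rw [theta_apply, map_sum, map_sum]
  exact Finset.sum_congr rfl fun j _ => h j _ (x j).2

end

theorem ocmo (h1 : OstdStmt) (h2 : OrealStmt) (h3 : OwrStmt) : OcmoStmt := by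
  intro F K _ _ _ _ _ Q m p k lam hm3 hmodd hm hQ hadj hlamq hp hp2 hpq hk hord
  have := Fact.mk hp
  have hq : 2 ≤ Nat.card F := Finite.one_lt_card
  have hlam0 : lam ≠ 0 := by
    rintro rfl
    rw [orderOf_zero] at hord
    exact absurd hord (Nat.ne_of_lt (Nat.pow_pos hp.pos))
  have hcond : ∀ t : ℕ, 1 ≤ t → (p ^ k ∣ Nat.card F ^ t - 1 ↔ 2 * m ∣ t) := by
    intro t ht
    rw [← frob_fix hm hadj t, ← hord, orderOf_dvd_iff_pow_eq_one]
    have h4 : Nat.card F ^ t = Nat.card F ^ t - 1 + 1 := by
      have : 1 ≤ Nat.card F ^ t := Nat.one_le_pow _ _ (by omega)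
      omega
    conv_rhs => rw [h4, pow_succ]
    constructor
    · intro h
      rw [h, one_mul]
    · intro h
      exact mul_eq_right₀ hlam0 |>.1 h
  obtain ⟨a, b, ha, hb, hkab, hmb, hpa, -, hv⟩ := cmo_nums hq hp hp2 hpq hm3 hk hcond
  subst hkab
  subst hmb
  have : NeZero (p ^ b) := ⟨(Nat.pow_pos hp.pos).ne'⟩
  have : NeZero (p ^ a) := ⟨(Nat.pow_pos hp.pos).ne'⟩
  have hpq1 : ¬ p ∣ Nat.card F - 1 := by
    intro h
    have h1 : p ∣ (Nat.card F + 1) - (Nat.card F - 1) := Nat.dvd_sub hpq h
    have h2 : (Nat.card F + 1) - (Nat.card F - 1) = 2 := by omega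
    rw [h2] at h1
    have := Nat.le_of_dvd (by norm_num) h1
    have := hp.two_le
    omega
  set zeta : K := lam ^ p ^ b with hzeta
  have hz0 : zeta ≠ 0 := pow_ne_zero _ hlam0
  have hzord : orderOf zeta = p ^ a := by
    rw [hzeta, orderOf_pow_of_dvd (Nat.pow_pos hp.pos).ne', hord, pow_add,
      Nat.mul_div_cancel _ (Nat.pow_pos hp.pos)]
    rw [hord, pow_add]
    exact Dvd.intro_left _ rfl
  have hzN : zeta ^ p ^ a = 1 := by rw [← hzord, pow_orderOf_eq_one]
  have hzq : zeta ^ (Nat.card F + 1) = 1 := by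
    rw [← orderOf_dvd_iff_pow_eq_one, hzord]
    exact hpa
  have hzL : zeta ∈ Lq F K := by
    rw [mem_Lq]
    have h4 : Nat.card F ^ 2 = (Nat.card F + 1) * (Nat.card F - 1) + 1 := by
      have : Nat.card F ^ 2 - 1 ^ 2 = (Nat.card F + 1) * (Nat.card F - 1) := Nat.sq_sub_sq _ _
      have h5 : 1 ≤ Nat.card F ^ 2 := Nat.one_le_pow _ _ (by omega)
      omega
    rw [h4, pow_add, pow_mul, hzq, one_pow, one_mul, pow_one]
  have hbij := theta_bij hm hadj hzL
  have hND : ND Q := (h1 F K (p ^ b) (Nat.one_le_pow _ _ hp.pos) hm).2 Q hQ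
  -- multiplication by `lam`
  let y : K ≃ₗ[F] K := LinearEquiv.ofBijective (LinearMap.mulLeft F lam)
    ⟨fun u v huv => mul_left_cancel₀ hlam0 huv,
      fun v => ⟨lam⁻¹ * v, mul_inv_cancel_left₀ hlam0 v⟩⟩
  have hy : ∀ v, y v = lam * v := fun v => rfl
  have hQnorm : ∀ u v : K, u ^ (1 + Nat.card F ^ p ^ b) = v ^ (1 + Nat.card F ^ p ^ b) →
      Q u = Q v := by
    intro u v huv
    apply FaithfulSMul.algebraMap_injective F K
    rw [hQ, hQ, huv]
  have hyO : y ∈ OV Q := by
    intro v
    rw [hy]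
    apply hQnorm
    rw [mul_pow, add_comm 1, hlamq, one_mul]
  have hypow : ∀ (n : ℕ) (v : K), (y ^ n) v = lam ^ n * v := by
    intro n
    induction n with
    | zero =>
      intro v
      rw [pow_zero, pow_zero, one_mul]
      rfl
    | succ n ih =>
      intro v
      rw [pow_succ, pow_succ, LinearEquiv.mul_apply, ih, hy, mul_assoc]
  have hyodd : Odd (orderOf y) := by
    have h4 : y ^ p ^ (a + b) = 1 := by
      ext v
      rw [hypow, ← hord, pow_orderOf_eq_one, one_mul]
      rfl
    exact Odd.of_dvd_nat ((hp.odd_of_ne_two hp2).pow) (orderOf_dvd_of_pow_eq_one h4)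
  have hspan : Submodule.span F (Set.range fun i : ℕ => (y ^ i) (1 : K)) = ⊤ := by
    have hmem : ∀ i : ℕ, lam ^ i ∈ Submodule.span F (Set.range fun i : ℕ => (y ^ i) (1 : K)) := by
      intro i
      apply Submodule.subset_span
      exact ⟨i, by simp only; rw [hypow, mul_one]⟩
    have hmul : ∀ c : K, ∀ x ∈ Submodule.span F (Set.range fun i : ℕ => (y ^ i) (1 : K)),
        c * x ∈ Submodule.span F (Set.range fun i : ℕ => (y ^ i) (1 : K)) := by
      intro c
      have hc : c ∈ Algebra.adjoin F {lam} := by rw [hadj]; trivial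
      induction hc using Algebra.adjoin_induction with
      | mem x hx =>
        rw [Set.mem_singleton_iff] at hx
        intro z hz
        induction hz using Submodule.span_induction with
        | mem z hz =>
          obtain ⟨i, rfl⟩ := hz
          simp only
          rw [hypow, mul_one, hx, ← pow_succ']
          exact hmem _
        | zero => rw [mul_zero]; exact Submodule.zero_mem _
        | add u v _ _ hu hv => rw [mul_add]; exact Submodule.add_mem _ hu hv
        | smul r u _ hu => rw [mul_smul_comm]; exact Submodule.smul_mem _ r hu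
      | algebraMap r =>
        intro z hz
        rw [← Algebra.smul_def]
        exact Submodule.smul_mem _ r hz
      | add u v _ _ hu hv =>
        intro z hz
        rw [add_mul]
        exact Submodule.add_mem _ (hu z hz) (hv z hz)
      | mul u v _ _ hu hv =>
        intro z hz
        rw [mul_assoc]
        exact hu _ (hv z hz)
    rw [eq_top_iff]
    intro z _
    have h5 := hmul z 1 (by have := hmem 0; rwa [pow_zero] at this)
    rwa [mul_one] at h5
  have hyOm : y ∈ OmV Q := (h2 F K Q hND y hyO 1 hspan).2 hyodd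
  -- the isometries
  set f : (ZMod (p ^ b) → ZMod (p ^ a) × ℤˣ) → (K ≃ₗ[F] K) := fun X =>
    fmap (p ^ b) lam hbij zeta hzL hz0 X with hf
  have hfa : ∀ X (j : ZMod (p ^ b)) {u : K}, u ∈ Lq F K → f X (u * lam ^ j.val) =
      gfun F zeta (X j).1 (X j).2 u * lam ^ j.val := fun X j u hu =>
    fmap_apply (p ^ b) lam hbij zeta hzL hz0 X j hu
  have hgL : ∀ (n : ZMod (p ^ a)) (e : ℤˣ) {u : K}, u ∈ Lq F K → gfun F zeta n e u ∈ Lq F K :=
    fun n e u hu => (gequiv zeta hzL hz0 n e ⟨u, hu⟩).2
  have hLm : ∀ u : K, u ∈ Lq F K → u ^ Nat.card F ^ p ^ b = u ^ Nat.card F := by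
    intro u hu
    obtain ⟨s, hs⟩ := hmodd
    rw [hs, pow_succ, pow_mul, fix_pow F (mem_Lq.1 hu)]
  have hgnorm : ∀ (n : ZMod (p ^ a)) (e : ℤˣ) {u : K}, u ∈ Lq F K →
      (gfun F zeta n e u) ^ (1 + Nat.card F) = u ^ (1 + Nat.card F) := by
    intro n e u hu
    have h4 : (zeta ^ n.val) ^ (1 + Nat.card F) = 1 := by
      rw [← pow_mul, mul_comm, pow_mul, add_comm 1, hzq, one_pow]
    unfold gfun
    rw [mul_pow, h4, one_mul]
    split_ifs
    · rfl
    · rw [pow_add, pow_one, Lq_powq hu, mul_comm, pow_add, pow_one]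
  have hfO : ∀ X, f X ∈ OV Q := by
    intro X v
    obtain ⟨x, rfl⟩ := hbij.2 v
    rw [theta_apply, map_sum]
    have h4 : ∀ j : ZMod (p ^ b), f X ((x j : K) * lam ^ j.val) =
        gfun F zeta (X j).1 (X j).2 (x j) * lam ^ j.val := fun j => hfa X j (x j).2
    rw [Finset.sum_congr rfl fun j _ => h4 j, map_sum_orth Q _ (fun i j hij =>
      orth hp ha hv hord hm hlamq hQ (hgL _ _ (x i).2) (hgL _ _ (x j).2) hij),
      map_sum_orth Q _ (fun i j hij => orth hp ha hv hord hm hlamq hQ (x i).2 (x j).2 hij)]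
    refine Finset.sum_congr rfl fun j _ => ?_
    apply hQnorm
    rw [mul_pow, mul_pow]
    congr 1
    rw [pow_add, pow_one, hLm _ (hgL _ _ (x j).2), pow_add, pow_one, hLm _ (x j).2]
    have := hgnorm (X j).1 (X j).2 (x j).2
    rwa [pow_add, pow_one, pow_add, pow_one] at this
  have hstep : ∀ X, eng y (f X) = f (tw X) := by
    intro X
    have h4 : f X * y = y * (f X * f (tw X)) := by
      apply ext_theta (p ^ b) lam hbij
      intro j u hu
      rw [LinearEquiv.mul_apply, LinearEquiv.mul_apply, LinearEquiv.mul_apply, hy, hy,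
        hfa _ _ hu, hfa _ _ (hgL _ _ hu), gfun_gfun hzN hzq _ _ _ _ hu]
      have hee : (X j).2 * (tw X j).2 = (X (j + 1)).2 := by
        simp only [tw]
        rw [← mul_assoc, Int.units_mul_self, one_mul]
      have hnn : (X j).1 + (((X j).2 : ℤ) : ZMod (p ^ a)) * (tw X j).1 =
          if j = -1 then (X 0).1 - 1 + (((X 0).2 : ℤ) : ZMod (p ^ a)) else (X (j + 1)).1 := by
        simp only [tw]
        rw [← mul_assoc, ← Int.cast_mul, ← Units.val_mul, Int.units_mul_self, Units.val_one,
          Int.cast_one, one_mul, add_sub_cancel]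
      rw [hee, hnn]
      by_cases hj : j = -1
      · rw [if_pos hj]
        have hj0 : j + 1 = 0 := by rw [hj, neg_add_cancel]
        rw [hj0]
        have hval : j.val + 1 = p ^ b := by
          rw [hj]
          have h6 : (-1 : ZMod (p ^ b)).val = p ^ b - 1 := by
            obtain ⟨c, hc⟩ : ∃ c, p ^ b = c + 1 :=
              ⟨p ^ b - 1, (Nat.sub_add_cancel (Nat.one_le_pow _ _ hp.pos)).symm⟩
            have h7 : ∀ (M : ℕ) [NeZero M], M = c + 1 → (-1 : ZMod M).val = M - 1 := by
              rintro M _ rfl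
              exact ZMod.val_neg_one c
            exact h7 _ hc
          rw [h6, Nat.sub_add_cancel (Nat.one_le_pow _ _ hp.pos)]
        have hzl : zeta = lam ^ j.val * lam := by
          have h20 := congrArg (fun t : ℕ => lam ^ t) hval
          have h21 : lam ^ (j.val + 1) = lam ^ (p ^ b) := h20
          rw [pow_succ] at h21
          exact h21.symm
        have h8 : lam * (u * lam ^ j.val) = (u * zeta) * lam ^ (0 : ZMod (p ^ b)).val := by
          rw [ZMod.val_zero, pow_zero, mul_one]
          linear_combination (-u) * hzl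
        rw [h8, hfa _ _ (Lq_mul hu hzL), ZMod.val_zero, pow_zero, mul_one]
        have h9 : lam * (gfun F zeta ((X 0).1 - 1 + (((X 0).2 : ℤ) : ZMod (p ^ a))) (X 0).2 u *
            lam ^ j.val) =
            zeta * gfun F zeta ((X 0).1 - 1 + (((X 0).2 : ℤ) : ZMod (p ^ a))) (X 0).2 u := by
          generalize gfun F zeta ((X 0).1 - 1 + (((X 0).2 : ℤ) : ZMod (p ^ a))) (X 0).2 u = w
          linear_combination (-w) * hzl
        rw [h9]
        have hz1 : ∀ w : K, zeta * w = gfun F zeta (1 : ZMod (p ^ a)) 1 w := by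
          intro w
          have h10 : (1 : ZMod (p ^ a)).val = 1 := by
            have : 1 < p ^ a := Nat.one_lt_pow (by omega) hp.one_lt
            have : Fact (1 < p ^ a) := ⟨this⟩
            exact ZMod.val_one _
          unfold gfun
          rw [h10, pow_one, if_pos rfl]
        rw [mul_comm u zeta, hz1 u, hz1 (gfun F zeta _ _ u), gfun_gfun hzN hzq _ _ _ _ hu,
          gfun_gfun hzN hzq _ _ _ _ hu]
        congr 1
        · rw [Units.val_one, Int.cast_one]
          ring
        · rw [mul_comm]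
      · rw [if_neg hj]
        have hval : (j + 1).val = j.val + 1 := by
          have h11 := ZMod.val_lt j
          have h12 : 1 < p ^ b := Nat.one_lt_pow (by omega) hp.one_lt
          have : Fact (1 < p ^ b) := ⟨h12⟩
          rw [ZMod.val_add, ZMod.val_one, Nat.mod_eq_of_lt]
          suffices h13 : j.val < p ^ b - 1 by omega
          rcases Nat.lt_or_ge j.val (p ^ b - 1) with h12 | h12
          · exact h12
          · exfalso
            apply hj
            apply ZMod.val_injective
            obtain ⟨c, hc⟩ : ∃ c, p ^ b = c + 1 :=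
              ⟨p ^ b - 1, (Nat.sub_add_cancel (Nat.one_le_pow _ _ hp.pos)).symm⟩
            have h7 : ∀ (M : ℕ) [NeZero M], M = c + 1 → (-1 : ZMod M).val = M - 1 := by
              rintro M _ rfl
              exact ZMod.val_neg_one c
            rw [h7 _ hc]
            omega
        have h8 : lam * (u * lam ^ j.val) = u * lam ^ (j + 1).val := by
          rw [hval, pow_succ]
          ring
        rw [h8, hfa _ _ hu, hval, pow_succ]
        ring
    unfold eng
    rw [mul_assoc, h4]
    group
  have hiter : ∀ (r : ℕ) X, (eng y)^[r] (f X) = f (tw^[r] X) := by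
    intro r
    induction r with
    | zero => intro X; rfl
    | succ r ih =>
      intro X
      rw [Function.iterate_succ_apply, hstep, ih, Function.iterate_succ_apply]
  -- the conclusion
  intro d hd ⟨r, hr⟩
  obtain ⟨X, hX⟩ := h3 p b a hp hp2 hb ha
  obtain ⟨c, hc⟩ := hr (f X) (hfO X) y hyOm
  rw [hiter, hiter] at hc
  rw [add_comm a b]
  apply hX r d hd
  have hcK : ∀ (j : ZMod (p ^ b)) {u : K}, u ∈ Lq F K →
      gfun F zeta (tw^[r + d] X j).1 (tw^[r + d] X j).2 u =
        algebraMap F K c * gfun F zeta (tw^[r] X j).1 (tw^[r] X j).2 u := by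
    intro j u hu
    have h4 := hc (u * lam ^ j.val)
    rw [hfa _ _ hu, hfa _ _ hu, Algebra.smul_def, ← mul_assoc] at h4
    exact mul_right_cancel₀ (pow_ne_zero _ hlam0) h4
  have hg1 : ∀ (n : ZMod (p ^ a)) (e : ℤˣ), gfun F zeta n e 1 = zeta ^ n.val := by
    intro n e
    unfold gfun
    rw [one_pow, ite_self, mul_one]
  have hc1 : ∀ j : ZMod (p ^ b), zeta ^ (tw^[r + d] X j).1.val =
      algebraMap F K c * zeta ^ (tw^[r] X j).1.val := by
    intro j
    have h4 := hcK j (u := 1) Lq_one
    rwa [hg1, hg1] at h4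
  have hcc : algebraMap F K c = 1 := by
    have h4 := hc1 0
    have hc0 : algebraMap F K c ≠ 0 := by
      intro h
      rw [h, zero_mul] at h4
      exact pow_ne_zero _ hz0 h4
    have h5 : (algebraMap F K c) ^ p ^ a = 1 := by
      have h6 : (zeta ^ (tw^[r + d] X 0).1.val) ^ p ^ a =
          (algebraMap F K c * zeta ^ (tw^[r] X 0).1.val) ^ p ^ a :=
        congrArg (fun t => t ^ p ^ a) h4
      rw [mul_pow, ← pow_mul, mul_comm _ (p ^ a), pow_mul, hzN, one_pow, ← pow_mul,
        mul_comm _ (p ^ a), pow_mul, hzN, one_pow, mul_one] at h6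
      exact h6.symm
    have h7 : (algebraMap F K c) ^ (Nat.card F - 1) = 1 := by
      have h8 := algebraMap_pow_q F (K := K) 1 c
      rw [pow_one] at h8
      have h9 : Nat.card F = Nat.card F - 1 + 1 := by omega
      rw [h9, pow_succ] at h8
      exact mul_eq_right₀ hc0 |>.1 h8
    have h10 : orderOf (algebraMap F K c) ∣ Nat.gcd (p ^ a) (Nat.card F - 1) :=
      Nat.dvd_gcd (orderOf_dvd_of_pow_eq_one h5) (orderOf_dvd_of_pow_eq_one h7)
    have h11 : Nat.gcd (p ^ a) (Nat.card F - 1) = 1 :=
      Nat.Coprime.pow_left a ((Nat.Prime.coprime_iff_not_dvd hp).2 hpq1)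
    rw [h11, Nat.dvd_one, orderOf_eq_one_iff] at h10
    exact h10
  funext j
  have hn : (tw^[r + d] X j).1 = (tw^[r] X j).1 := by
    have h4 := hc1 j
    rw [hcc, one_mul] at h4
    apply ZMod.val_injective
    have hprim : IsPrimitiveRoot zeta (p ^ a) := hzord ▸ IsPrimitiveRoot.orderOf zeta
    exact hprim.pow_inj (ZMod.val_lt _) (ZMod.val_lt _) h4
  have he : (tw^[r + d] X j).2 = (tw^[r] X j).2 := by
    have h4 := hcK j (u := zeta) hzL
    rw [hcc, one_mul, hn] at h4
    unfold gfun at h4
    have h5 := mul_left_cancel₀ (pow_ne_zero _ hz0) h4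
    have h6 : zeta ^ Nat.card F ≠ zeta := by
      intro h
      have h9 : Nat.card F = Nat.card F - 1 + 1 := by omega
      rw [h9, pow_succ] at h
      have h10 := mul_eq_right₀ hz0 |>.1 h
      rw [← orderOf_dvd_iff_pow_eq_one, hzord] at h10
      exact hpq1 ((dvd_pow_self p (by omega)).trans h10)
    rcases Int.units_eq_one_or (tw^[r + d] X j).2 with h7 | h7 <;>
    rcases Int.units_eq_one_or (tw^[r] X j).2 with h8 | h8
    · rw [h7, h8]
    · rw [h7, h8, if_pos rfl, if_neg (by decide)] at h5
      exact absurd h5.symm h6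
    · rw [h7, h8, if_pos rfl, if_neg (by decide)] at h5
      exact absurd h5 h6
    · rw [h7, h8]
  exact Prod.ext hn he

end Pool.Agent.Eng.H75
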