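import Pool.Agent.Helper75_Eng3.Frob

/-! Squad ENG part 3, module OIRR (helper75): irreducible isometries. -/

set_option autoImplicit false

namespace Pool.Agent.Eng.H75

open Pool.Agent.Eng

section
variable {F K : Type} [Field F] [Finite F] [Field K] [Algebra F K] [FiniteDimensional F K]

/-- The polar form of a quadratic form on `K` is `Tr(c x σ(y))`. -/
theorem adjoint_exists {B : LinearMap.BilinForm F K} (hB : ∀ u, (∀ v, B u v = 0) → u = 0)
    (hsymm : ∀ u v, B u v = B v u) {lam : K} (hlam0 : lam ≠ 0)
    (hlam : ∀ x y, B (lam * x) (lam * y) = B x y) (hadj : Algebra.adjoin F {lam} = ⊤) :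
    ∃ σ : K ≃ₐ[F] K, (∀ a x y, B (a * x) y = B x (σ a * y)) ∧ (∀ a, σ (σ a) = a) ∧
      σ lam = lam⁻¹ := by
  have hex : ∀ a : K, ∃ a' : K, ∀ x y, B (a * x) y = B x (a' * y) := by
    intro a
    have ha : a ∈ Algebra.adjoin F {lam} := by rw [hadj]; trivial
    induction ha using Algebra.adjoin_induction with
    | mem x hx =>
      rw [Set.mem_singleton_iff] at hx
      subst hx
      refine ⟨x⁻¹, fun u v => ?_⟩
      rw [← hlam u (x⁻¹ * v), mul_inv_cancel_left₀ hlam0]
    | algebraMap r =>
      refine ⟨algebraMap F K r, fun u v => ?_⟩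
      rw [← Algebra.smul_def, ← Algebra.smul_def, map_smul, map_smul, LinearMap.smul_apply]
    | add a b _ _ ha hb =>
      obtain ⟨a', ha'⟩ := ha
      obtain ⟨b', hb'⟩ := hb
      refine ⟨a' + b', fun u v => ?_⟩
      rw [add_mul, add_mul, map_add, map_add, LinearMap.add_apply, ha', hb']
    | mul a b _ _ ha hb =>
      obtain ⟨a', ha'⟩ := ha
      obtain ⟨b', hb'⟩ := hb
      refine ⟨b' * a', fun u v => ?_⟩
      rw [mul_assoc, ha', hb', mul_assoc]
  choose st hst using hex
  have huniq : ∀ a b : K, (∀ x y, B x (a * y) = B x (b * y)) → a = b := by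
    intro a b h
    have : ∀ v, B (a - b) v = 0 := by
      intro v
      have h1 := h v 1
      rw [mul_one, mul_one] at h1
      rw [hsymm, map_sub, h1, sub_self]
    exact sub_eq_zero.1 (hB _ this)
  have hmul : ∀ a b, st (a * b) = st a * st b := fun a b => huniq _ _ fun x y => by
    rw [← hst, mul_comm a b, mul_assoc, hst, hst, mul_assoc]
  have hadd : ∀ a b, st (a + b) = st a + st b := fun a b => huniq _ _ fun x y => by
    rw [← hst, add_mul, add_mul, map_add, map_add, LinearMap.add_apply, hst, hst]
  have hcom : ∀ r : F, st (algebraMap F K r) = algebraMap F K r := fun r =>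
    huniq _ _ fun x y => by
      rw [← hst, ← Algebra.smul_def, ← Algebra.smul_def, map_smul, map_smul,
        LinearMap.smul_apply]
  have hinv : ∀ a, st (st a) = a := fun a => huniq _ _ fun x y => by
    rw [← hst, hsymm, ← hst a, hsymm]
  have hone : st 1 = 1 := by
    have := hcom 1
    rwa [map_one] at this
  have hzero : st 0 = 0 := by
    have := hcom 0
    rwa [map_zero] at this
  have hst_lam : st lam = lam⁻¹ := huniq _ _ fun x y => by
    rw [← hst, ← hlam x (lam⁻¹ * y), mul_inv_cancel_left₀ hlam0]
  refine ⟨{ toFun := st, invFun := st, left_inv := hinv, right_inv := hinv, map_mul' := hmul,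
            map_add' := hadd, commutes' := hcom }, hst, hinv, hst_lam⟩

/-- The involution is `x ↦ x^(q^m)`. -/
theorem involution_frob {σ : K ≃ₐ[F] K} (hσ : ∀ a, σ (σ a) = a) (hne : ∃ a, σ a ≠ a) :
    ∃ m, 1 ≤ m ∧ Module.finrank F K = 2 * m ∧ ∀ x, σ x = x ^ Nat.card F ^ m := by
  classical
  have hK : Finite K := Module.finite_of_finite F
  have := Fintype.ofFinite F
  obtain ⟨⟨j, hj⟩, hjσ⟩ := (FiniteField.bijective_frobeniusAlgEquivOfAlgebraic_pow F K).2 σ
  have hjσ' : FiniteField.frobeniusAlgEquivOfAlgebraic F K ^ j = σ := hjσ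
  have hx : ∀ x, σ x = x ^ Nat.card F ^ j := by
    intro x
    rw [← hjσ', AlgEquiv.coe_pow, FiniteField.coe_frobeniusAlgEquivOfAlgebraic_iterate,
      Nat.card_eq_fintype_card]
  have hsq : FiniteField.frobeniusAlgEquivOfAlgebraic F K ^ (j + j) = 1 := by
    rw [pow_add, hjσ']
    ext a
    exact hσ a
  have hdvd := orderOf_dvd_of_pow_eq_one hsq
  rw [FiniteField.orderOf_frobeniusAlgEquivOfAlgebraic] at hdvd
  have hj0 : j ≠ 0 := by
    rintro rfl
    obtain ⟨a, ha⟩ := hne
    apply ha
    rw [hx, pow_zero, pow_one]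
  have hle := Nat.le_of_dvd (by omega) hdvd
  refine ⟨j, by omega, ?_, hx⟩
  obtain ⟨k, hk⟩ := hdvd
  have hk1 : k = 1 := by
    rcases k with _ | _ | k
    · omega
    · rfl
    · exfalso
      have : Module.finrank F K * (k + 1 + 1) ≥ Module.finrank F K * 2 :=
        Nat.mul_le_mul_left _ (by omega)
      omega
  rw [hk1, mul_one] at hk
  omega

/-- A quadratic form with zero polar form that is invariant under an irreducible map is zero. -/
theorem additive_zero {D : QuadraticForm F K} (hD : ∀ x y, QuadraticMap.polar D x y = 0)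
    {lam : K} (hlam : ∀ x, D (lam * x) = D x) (hadj : Algebra.adjoin F {lam} = ⊤)
    (hdim : 2 ≤ Module.finrank F K) : ∀ x, D x = 0 := by
  have hadd : ∀ x y, D (x + y) = D x + D y := by
    intro x y
    have := hD x y
    rw [QuadraticMap.polar] at this
    linear_combination this
  by_cases h2 : (2 : F) = 0
  · -- characteristic 2
    let Z : Submodule F K :=
      { carrier := {x | D x = 0}
        add_mem' := by
          intro a b ha hb
          change D (a + b) = 0
          rw [hadd, show D a = 0 from ha, show D b = 0 from hb, add_zero]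
        zero_mem' := QuadraticMap.map_zero D
        smul_mem' := by
          intro c a ha
          change D (c • a) = 0
          rw [QuadraticMap.map_smul, show D a = 0 from ha, smul_zero] }
    have hZ : ∀ a : K, ∀ x ∈ Z, a * x ∈ Z := by
      intro a
      have ha : a ∈ Algebra.adjoin F {lam} := by rw [hadj]; trivial
      induction ha using Algebra.adjoin_induction with
      | mem x hx =>
        rw [Set.mem_singleton_iff] at hx
        subst hx
        intro y hy
        change D (x * y) = 0
        rw [hlam]
        exact hy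
      | algebraMap r =>
        intro y hy
        rw [← Algebra.smul_def]
        exact Z.smul_mem r hy
      | add a b _ _ ha hb =>
        intro y hy
        rw [add_mul]
        exact Z.add_mem (ha y hy) (hb y hy)
      | mul a b _ _ ha hb =>
        intro y hy
        rw [mul_assoc]
        exact ha _ (hb y hy)
    by_cases hz : ∃ x ∈ Z, x ≠ 0
    · obtain ⟨x, hx, hx0⟩ := hz
      intro y
      have := hZ (y * x⁻¹) x hx
      rw [inv_mul_cancel_right₀ hx0] at this
      exact this
    · exfalso
      push Not at hz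
      have hinj : Function.Injective D := by
        intro a b hab
        have h1 : D (a + b) = 0 := by
          rw [hadd, hab, ← two_mul, h2, zero_mul]
        have h3 : a + b = 0 := hz _ h1
        have h4 : b + b = 0 := by
          have : b + b = (2 : F) • b := (two_smul F b).symm
          rw [this, h2, zero_smul]
        calc a = a + (b + b) := by rw [h4, add_zero]
          _ = b := by rw [← add_assoc, h3, zero_add]
      have hK : Finite K := Module.finite_of_finite F
      have h5 : Nat.card K ≤ Nat.card F := Nat.card_le_card_of_injective D hinj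
      have := Fintype.ofFinite F
      have := Fintype.ofFinite K
      rw [Nat.card_eq_fintype_card, Nat.card_eq_fintype_card,
        Module.card_eq_pow_finrank (K := F) (V := K)] at h5
      have h6 : 1 < Fintype.card F := Fintype.one_lt_card
      have h7 : Fintype.card F ^ 1 < Fintype.card F ^ Module.finrank F K :=
        Nat.pow_lt_pow_right h6 (by omega)
      rw [pow_one] at h7
      omega
  · intro x
    have h1 := hD x x
    rw [QuadraticMap.polar_self] at h1
    rw [nsmul_eq_mul] at h1
    have : ((2 : ℕ) : F) * D x = 0 := h1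
    rw [Nat.cast_ofNat] at this
    exact (mul_eq_zero.1 this).resolve_left h2

end

theorem oirr (hLir : LirStmt) (hOstd : OstdStmt) : OirrStmt := by
  intro F U _ _ _ _ _ P hND hdim g hg hirr
  have hnt : Nontrivial U := Module.nontrivial_of_finrank_pos (R := F) (by omega)
  obtain ⟨K, iK, iA, iF, lam, e, hadj, he⟩ := hLir F U (g : U →ₗ[F] U) hirr
  have he' : ∀ v, e (g v) = lam * e v := he
  have hfr : Module.finrank F K = Module.finrank F U := e.symm.finrank_eq
  -- transport
  set P' : QuadraticForm F K := P.comp (e.symm : K →ₗ[F] U) with hP'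
  have hP'a : ∀ x, P' x = P (e.symm x) := fun x => rfl
  have hgs : ∀ x, e.symm (lam * x) = g (e.symm x) := by
    intro x
    rw [LinearEquiv.symm_apply_eq, he', LinearEquiv.apply_symm_apply]
  have hinv : ∀ x, P' (lam * x) = P' x := by
    intro x
    rw [hP'a, hP'a, hgs]
    exact hg _
  set B : LinearMap.BilinForm F K := QuadraticMap.polarBilin P' with hB
  have hBa : ∀ x y, B x y = QuadraticMap.polar P' x y := fun x y => rfl
  have hBP : ∀ x y, B x y = QuadraticMap.polar P (e.symm x) (e.symm y) := by
    intro x y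
    rw [hBa, QuadraticMap.polar, QuadraticMap.polar, hP'a, hP'a, hP'a, map_add]
  have hBnd : ∀ u, (∀ v, B u v = 0) → u = 0 := by
    intro u hu
    have : e.symm u = 0 := hND _ fun v => by
      have := hu (e v)
      rw [hBP, LinearEquiv.symm_apply_apply] at this
      exact this
    simpa using this
  have hsymm : ∀ u v, B u v = B v u := fun u v => QuadraticMap.polar_comm _ _ _
  have hlam0 : lam ≠ 0 := by
    rintro rfl
    obtain ⟨u, hu⟩ := exists_ne (0 : U)
    have h1 : ∀ x, P' x = 0 := by
      intro x
      rw [← hinv x, zero_mul, QuadraticMap.map_zero]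
    apply hu
    apply hND
    intro v
    have : B (e u) (e v) = 0 := by
      rw [hBa, QuadraticMap.polar, h1, h1, h1]
      simp
    rw [hBP] at this
    simpa using this
  have hBlam : ∀ x y, B (lam * x) (lam * y) = B x y := by
    intro x y
    rw [hBa, hBa, QuadraticMap.polar, QuadraticMap.polar, ← mul_add, hinv, hinv, hinv]
  obtain ⟨σ, hσ, hσσ, hσlam⟩ := adjoint_exists hBnd hsymm hlam0 hBlam hadj
  have hne : ∃ a, σ a ≠ a := by
    by_contra hcon
    push Not at hcon
    have h1 : lam⁻¹ = lam := by rw [← hσlam, hcon]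
    have h2 : lam * lam = 1 := by
      nth_rewrite 1 [← h1]
      exact inv_mul_cancel₀ hlam0
    have h3 : lam ∈ (⊥ : Subalgebra F K) := by
      rcases mul_self_eq_one_iff.1 h2 with h | h
      · rw [h]
        exact one_mem _
      · rw [h]
        exact neg_mem (one_mem _)
    have h4 : (⊥ : Subalgebra F K) = ⊤ := by
      apply le_antisymm le_top
      rw [← hadj, Algebra.adjoin_le_iff, Set.singleton_subset_iff]
      exact h3
    have h5 : Module.finrank F K = 1 := by
      rw [← Subalgebra.bot_eq_top_iff_finrank_eq_one]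
      exact h4
    omega
  obtain ⟨m, hm1, hm2, hm3⟩ := involution_frob hσσ hne
  have hlamq : lam ^ (Nat.card F ^ m + 1) = 1 := by
    rw [pow_succ, ← hm3, hσlam, inv_mul_cancel₀ hlam0]
  -- the functional
  have hK : Finite K := Module.finite_of_finite F
  have htr := traceForm_nondegenerate F K
  obtain ⟨c, hc⟩ : ∃ c : K, ∀ x, B x 1 = Algebra.trace F K (c * x) := by
    let f : Module.Dual F K := B.flip 1
    refine ⟨(LinearMap.BilinForm.toDual (Algebra.traceForm F K) htr).symm f, fun x => ?_⟩
    have := LinearMap.BilinForm.apply_toDual_symm_apply (hB := htr) f x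
    rw [Algebra.traceForm_apply] at this
    rw [this]
    rfl
  have hBc : ∀ x y, B x y = Algebra.trace F K (c * x * σ y) := by
    intro x y
    have h1 : B x y = B (σ y * x) 1 := by
      rw [hσ, hσσ, mul_one]
    rw [h1, hc]
    congr 1
    ring
  have htrσ : ∀ x, Algebra.trace F K (σ x) = Algebra.trace F K x := fun x =>
    Algebra.trace_eq_of_algEquiv σ x
  have hcσ : σ c = c := by
    have h1 : ∀ x, Algebra.trace F K ((σ c - c) * x) = 0 := by
      intro x
      have h2 : B x 1 = B 1 x := hsymm _ _
      rw [hBc, hBc, map_one, mul_one, mul_one] at h2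
      have h4 : σ (c * σ x) = σ c * x := by rw [map_mul σ, hσσ]
      have h5 := htrσ (c * σ x)
      rw [h4, ← h2] at h5
      rw [sub_mul, map_sub, h5, sub_self]
    have h3 := htr.1 (σ c - c) (fun x => by rw [Algebra.traceForm_apply]; exact h1 x)
    exact sub_eq_zero.1 h3
  have hc0 : c ≠ 0 := by
    rintro rfl
    have : (1 : K) = 0 := hBnd 1 fun v => by rw [hBc, zero_mul, zero_mul, map_zero]
    exact one_ne_zero this
  have hq2 : 2 ≤ Nat.card F ^ m := by
    have h1 : 1 < Nat.card F := Finite.one_lt_card
    calc 2 ≤ Nat.card F := h1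
      _ = Nat.card F ^ 1 := (pow_one _).symm
      _ ≤ Nat.card F ^ m := Nat.pow_le_pow_right (by omega) hm1
  have hcardK : Nat.card K = Nat.card F ^ m * Nat.card F ^ m := by
    have := Fintype.ofFinite F
    have := Fintype.ofFinite K
    rw [Nat.card_eq_fintype_card, Nat.card_eq_fintype_card, ← pow_add, ← two_mul, ← hm2,
      Module.card_eq_pow_finrank (K := F) (V := K)]
  obtain ⟨d, hd⟩ := norm_onto hq2 hcardK hc0 (by rw [← hm3]; exact hcσ)
  have hd0 : d ≠ 0 := by
    rintro rfl
    rw [zero_pow (by omega)] at hd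
    exact hc0 hd.symm
  obtain ⟨⟨Q, hQ⟩, -⟩ := hOstd F K m hm1 hm2
  -- the difference
  let μ : K →ₗ[F] K := LinearMap.mulLeft F d
  have hpol : ∀ x y, QuadraticMap.polar (P' - Q.comp μ) x y = 0 := by
    intro x y
    have h1 : QuadraticMap.polar (P' - Q.comp μ) x y =
        QuadraticMap.polar P' x y - QuadraticMap.polar Q (d * x) (d * y) := by
      simp only [QuadraticMap.polar, sub_apply, QuadraticMap.comp_apply, μ,
        LinearMap.mulLeft_apply, mul_add]
      ring
    rw [h1, polar_std F hm2 hQ, ← hBa, hBc, sub_eq_zero]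
    congr 1
    rw [hm3 y, ← hd, mul_pow d y]
    ring
  have hQlam : ∀ x, Q (lam * x) = Q x := by
    intro x
    apply FaithfulSMul.algebraMap_injective F K
    rw [hQ, hQ]
    refine Finset.sum_congr rfl fun i _ => ?_
    congr 1
    rw [mul_pow, add_comm 1, hlamq, one_mul]
  have hzero := additive_zero (D := P' - Q.comp μ) hpol (lam := lam) (by
    intro x
    simp only [sub_apply, QuadraticMap.comp_apply, μ, LinearMap.mulLeft_apply]
    rw [hinv, mul_left_comm, hQlam]) hadj (by omega)
  have hPQ : ∀ x, P' x = Q (d * x) := by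
    intro x
    have := hzero x
    simp only [sub_apply, QuadraticMap.comp_apply, μ, LinearMap.mulLeft_apply] at this
    exact sub_eq_zero.1 this
  let δ : K ≃ₗ[F] K := LinearEquiv.ofBijective μ
    ⟨fun a b hab => mul_left_cancel₀ hd0 hab, fun b => ⟨d⁻¹ * b, mul_inv_cancel_left₀ hd0 b⟩⟩
  have hδ : ∀ x, δ x = d * x := fun x => rfl
  refine ⟨m, K, iK, iA, iF, lam, Q, e.trans δ, hm1, hm2, hQ, hadj, hlamq, ?_, ?_⟩
  · intro u
    rw [LinearEquiv.trans_apply, LinearEquiv.trans_apply, hδ, hδ, he']
    ring
  · intro u
    rw [LinearEquiv.trans_apply, hδ, ← hPQ, hP'a, LinearEquiv.symm_apply_apply]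

end Pool.Agent.Eng.H75
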